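import Pool.Agent.Y247.BL.Stm

/-!
# Elimination: root multiplicities (helper954)
-/

set_option autoImplicit false

open Polynomial Filter Topology

namespace Pool.Agent.Y954.BL

open Pool.Agent.Y247.BL

/-- comparison of multiplicities -/
lemma mult_eq (f G : ℂ[X]) (hf : f ≠ 0) (hG : G ≠ 0) (c : ℂ) (N : ℕ)
    (h : (1 + C c * X) * derivative G * f = derivative f * G + C ((N : ℂ) * c) * f * G) (ζ : ℂ) :
    (1 + c * ζ) * (G.rootMultiplicity ζ : ℂ) = (f.rootMultiplicity ζ : ℂ) := by
  obtain ⟨f1, hf1, hf2⟩ := exists_eq_pow_rootMultiplicity_mul_and_not_dvd f hf ζ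
  obtain ⟨G1, hG1, hG2⟩ := exists_eq_pow_rootMultiplicity_mul_and_not_dvd G hG ζ
  set m := f.rootMultiplicity ζ with hm
  set l := G.rootMultiplicity ζ with hl
  have hf3 : f1.eval ζ ≠ 0 := fun h0 => hf2 (dvd_iff_isRoot.2 h0)
  have hG3 : G1.eval ζ ≠ 0 := fun h0 => hG2 (dvd_iff_isRoot.2 h0)
  have hd : ∀ (k : ℕ) (g : ℂ[X]), (X - C ζ) * derivative ((X - C ζ) ^ k * g) =
      (X - C ζ) ^ k * (C (k : ℂ) * g + (X - C ζ) * derivative g) := by
    intro k g
    rw [derivative_mul, derivative_X_sub_C_pow]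
    rcases k with _ | k
    · simp
    · rw [Nat.add_sub_cancel]
      push_cast
      ring
  have h1 := hd l G1
  have h2 := hd m f1
  rw [← hG1] at h1
  rw [← hf1] at h2
  have h3 : (X - C ζ) ^ (l + m) * ((1 + C c * X) * (C (l : ℂ) * G1 + (X - C ζ) * derivative G1) * f1) =
      (X - C ζ) ^ (l + m) * ((C (m : ℂ) * f1 + (X - C ζ) * derivative f1) * G1 +
        C ((N : ℂ) * c) * (X - C ζ) * f1 * G1) := by
    calc (X - C ζ) ^ (l + m) * ((1 + C c * X) * (C (l : ℂ) * G1 + (X - C ζ) * derivative G1) * f1) =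
        (1 + C c * X) * ((X - C ζ) ^ l * (C (l : ℂ) * G1 + (X - C ζ) * derivative G1)) *
          ((X - C ζ) ^ m * f1) := by rw [pow_add]; ring
      _ = (X - C ζ) * ((1 + C c * X) * derivative G * f) := by rw [← h1, ← hf1]; ring
      _ = (X - C ζ) * derivative f * G + C ((N : ℂ) * c) * (X - C ζ) * f * G := by rw [h]; ring
      _ = ((X - C ζ) ^ m * (C (m : ℂ) * f1 + (X - C ζ) * derivative f1)) * ((X - C ζ) ^ l * G1) +
          C ((N : ℂ) * c) * (X - C ζ) * ((X - C ζ) ^ m * f1) * ((X - C ζ) ^ l * G1) := by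
            rw [← h2, ← hf1, ← hG1]
      _ = _ := by rw [pow_add]; ring
  have h4 := mul_left_cancel₀ (pow_ne_zero _ (X_sub_C_ne_zero ζ)) h3
  have h5 := congrArg (eval ζ) h4
  simp only [eval_mul, eval_add, eval_sub, eval_X, eval_C, sub_self, zero_mul, mul_zero, add_zero,
    eval_one] at h5
  have h6 : ((1 + c * ζ) * (l : ℂ)) * (G1.eval ζ * f1.eval ζ) =
      (m : ℂ) * (G1.eval ζ * f1.eval ζ) := by linear_combination h5
  exact mul_right_cancel₀ (mul_ne_zero hG3 hf3) h6

theorem elim : StElim := by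
  intro f c hf0 hc hev
  set κ : ℂ := -(c / starRingEnd ℂ c) with hκ
  have hf : f ≠ 0 := by
    rintro rfl
    exact hf0 (coeff_zero 0)
  set N := f.natDegree with hN
  set g := star' f with hg
  have hgN : g.natDegree = N := by
    rw [hg, star', natDegree_map]
  have hg0 : g.coeff 0 ≠ 0 := by
    rw [hg, star', coeff_map]
    exact (_root_.map_ne_zero _).2 hf0
  let A : ℕ → ℂ[X] := fun j => (C κ * X) ^ j * (1 + C c * X) ^ (N - j)
  let G : ℂ[X] := ∑ j ∈ Finset.range (N + 1), C (g.coeff j) * A j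
  let G1 : ℂ[X] := ∑ j ∈ Finset.range (N + 1), C ((j : ℂ) * g.coeff j) * A j
  -- derivative of the terms
  have hA : ∀ j ∈ Finset.range (N + 1), (1 + C c * X) * X * derivative (A j) =
      C (j : ℂ) * A j + C ((N : ℂ) * c) * X * A j := by
    intro j hj
    have hjN : j ≤ N := by
      have := Finset.mem_range.1 hj
      omega
    obtain ⟨i, hi⟩ := Nat.exists_eq_add_of_le hjN
    simp only [A]
    have h1 : N - j = i := by omega
    have h2 : (N : ℂ[X]) = (j : ℂ[X]) + i := by rw [hi]; push_cast; ring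
    have h3 : X * derivative ((C κ * X) ^ j : ℂ[X]) = (j : ℂ[X]) * (C κ * X) ^ j := by
      rw [derivative_pow, derivative_mul, derivative_C, derivative_X]
      rcases j with _ | j
      · simp
      · rw [Nat.add_sub_cancel]
        simp only [map_natCast]
        ring
    have h4 : (1 + C c * X) * derivative ((1 + C c * X) ^ i : ℂ[X]) =
        (i : ℂ[X]) * C c * (1 + C c * X) ^ i := by
      rw [derivative_pow, derivative_add, derivative_one, derivative_mul, derivative_C,
        derivative_X]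
      rcases i with _ | i
      · simp
      · rw [Nat.add_sub_cancel]
        simp only [map_natCast]
        ring
    rw [h1, derivative_mul, C_mul]
    simp only [map_natCast]
    rw [h2]
    linear_combination (1 + C c * X) * (1 + C c * X) ^ i * h3 + X * (C κ * X) ^ j * h4
  have hGd : (1 + C c * X) * X * derivative G = G1 + C ((N : ℂ) * c) * X * G := by
    simp only [G, G1, derivative_sum, Finset.mul_sum, ← Finset.sum_add_distrib]
    refine Finset.sum_congr rfl fun j hj => ?_
    rw [derivative_C_mul, C_mul]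
    linear_combination C (g.coeff j) * hA j hj
  -- values
  have hval : ∀ z : ℂ, 1 + c * z ≠ 0 → G.eval z = (1 + c * z) ^ N * g.eval (κ * z / (1 + c * z)) := by
    intro z hz
    simp only [G, A, eval_finsetSum, eval_mul, eval_pow, eval_add, eval_one, eval_C, eval_X]
    rw [eval_eq_sum_range, hgN, Finset.mul_sum]
    refine Finset.sum_congr rfl fun j hj => ?_
    have hjN : j ≤ N := by
      have := Finset.mem_range.1 hj
      omega
    rw [div_pow, show (1 + c * z) ^ N = (1 + c * z) ^ j * (1 + c * z) ^ (N - j) by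
      rw [← pow_add]; congr 1; omega]
    have h2 : (κ * z) ^ j / (1 + c * z) ^ j * (1 + c * z) ^ j = (κ * z) ^ j :=
      div_mul_cancel₀ _ (pow_ne_zero _ hz)
    linear_combination (-(g.coeff j) * (1 + c * z) ^ (N - j)) * h2
  have hval1 : ∀ z : ℂ, 1 + c * z ≠ 0 → G1.eval z = (1 + c * z) ^ N *
      ((κ * z / (1 + c * z)) * g.derivative.eval (κ * z / (1 + c * z))) := by
    intro z hz
    have h1 : ∀ u : ℂ, u * g.derivative.eval u =
        ∑ j ∈ Finset.range (N + 1), ((j : ℂ) * g.coeff j) * u ^ j := by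
      intro u
      conv_lhs => rw [g.as_sum_range' (N + 1) (by rw [hgN]; omega)]
      rw [derivative_sum, eval_finsetSum, Finset.mul_sum]
      refine Finset.sum_congr rfl fun j _ => ?_
      rw [derivative_monomial, eval_monomial]
      rcases j with _ | j
      · simp
      · rw [Nat.add_sub_cancel]
        ring
    simp only [G1, A, eval_finsetSum, eval_mul, eval_pow, eval_add, eval_one, eval_C, eval_X]
    rw [h1, Finset.mul_sum]
    refine Finset.sum_congr rfl fun j hj => ?_
    have hjN : j ≤ N := by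
      have := Finset.mem_range.1 hj
      omega
    rw [div_pow, show (1 + c * z) ^ N = (1 + c * z) ^ j * (1 + c * z) ^ (N - j) by
      rw [← pow_add]; congr 1; omega]
    have h2 : (κ * z) ^ j / (1 + c * z) ^ j * (1 + c * z) ^ j = (κ * z) ^ j :=
      div_mul_cancel₀ _ (pow_ne_zero _ hz)
    linear_combination (-((j : ℂ) * g.coeff j) * (1 + c * z) ^ (N - j)) * h2
  have hG0 : G ≠ 0 := by
    intro h0
    have h1 := hval 0 (by simp)
    rw [h0] at h1
    simp only [eval_zero, mul_zero, add_zero, one_pow, one_mul, zero_div] at h1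
    rw [← coeff_zero_eq_eval_zero] at h1
    exact hg0 h1.symm
  -- the identity of polynomials
  have hid : G1 * f = X * derivative f * G := by
    apply Polynomial.eq_of_infinite_eval_eq
    apply infinite_of_mem_nhds (0 : ℂ)
    have hne : ∀ᶠ z in 𝓝 (0 : ℂ), 1 + c * z ≠ 0 := by
      have h1 : Tendsto (fun z : ℂ => 1 + c * z) (𝓝 0) (𝓝 (1 + c * 0)) :=
        (continuous_const.add (continuous_const.mul continuous_id)).tendsto 0
      exact h1.eventually_ne (by simp)
    filter_upwards [hev, hne] with z hz1 hz2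
    show eval z (G1 * f) = eval z (X * derivative f * G)
    rw [eval_mul, eval_mul, eval_mul, eval_X, hval z hz2, hval1 z hz2]
    linear_combination (1 + c * z) ^ N * hz1
  have hC : (1 + C c * X) * derivative G * f = derivative f * G + C ((N : ℂ) * c) * f * G := by
    apply mul_left_cancel₀ (X_ne_zero (R := ℂ))
    linear_combination f * hGd + hid
  have hroot : ∀ ζ ∈ f.roots, ζ ≠ 0 ∧ ∃ x : ℝ, x ≠ 0 ∧ c * ζ = x := by
    intro ζ hζ
    have hζf : f.IsRoot ζ := (mem_roots hf).1 hζ
    have hζ0 : ζ ≠ 0 := by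
      rintro rfl
      apply hf0
      rw [coeff_zero_eq_eval_zero]
      exact hζf
    have h1 := mult_eq f G hf hG0 c N hC ζ
    have h2 : 0 < f.rootMultiplicity ζ := (rootMultiplicity_pos hf).2 hζf
    have h3 : (G.rootMultiplicity ζ : ℂ) ≠ 0 := by
      intro h4
      rw [h4, mul_zero] at h1
      have : f.rootMultiplicity ζ = 0 := by exact_mod_cast h1.symm
      omega
    have h4 : c * ζ = (((f.rootMultiplicity ζ : ℝ) / (G.rootMultiplicity ζ : ℝ) - 1 : ℝ) : ℂ) := by
      push_cast
      field_simp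
      linear_combination h1
    refine ⟨hζ0, _, ?_, h4⟩
    intro h5
    rw [h5, Complex.ofReal_zero] at h4
    rcases mul_eq_zero.1 h4 with h6 | h6
    · exact hc h6
    · exact hζ0 h6
  have hsp : f.Splits := IsAlgClosed.splits f
  have hf00 : f.eval 0 ≠ 0 := by rwa [← coeff_zero_eq_eval_zero]
  have hlog := hsp.eval_derivative_div_eval_of_ne_zero hf00
  have hsum : ∃ t : ℝ, (f.roots.map fun z : ℂ => 1 / (0 - z)).sum = t * c := by
    apply Multiset.sum_induction (fun w : ℂ => ∃ t : ℝ, w = t * c)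
    · rintro a b ⟨t, rfl⟩ ⟨s, rfl⟩
      exact ⟨t + s, by push_cast; ring⟩
    · exact ⟨0, by simp⟩
    · intro w hw
      obtain ⟨ζ, hζ, rfl⟩ := Multiset.mem_map.1 hw
      obtain ⟨h1, x, hx, h2⟩ := hroot ζ hζ
      refine ⟨-(1 / x), ?_⟩
      have hx' : (x : ℂ) ≠ 0 := by exact_mod_cast hx
      push_cast
      rw [← h2]
      field_simp
      ring
  obtain ⟨t, ht⟩ := hsum
  refine ⟨t, ?_⟩
  have h1 : f.coeff 1 = f.derivative.eval 0 := by
    rw [← coeff_zero_eq_eval_zero, coeff_derivative]
    simp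
  rw [h1, coeff_zero_eq_eval_zero, ← ht, ← hlog]
  field_simp

end Pool.Agent.Y954.BL
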